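import Mathlib
import Pool.Agent.W964.Wd.Gen.Main

/-!
The encoding of the constraint satisfaction problems as systems of polynomial equations.
-/

set_option linter.unusedSectionVars false

namespace Pool.Agent.W964.Wd

open Finset H568R2 H592R3 Pool.Agent.W964.Pram MvPolynomial

section Lit
variable {n : ℕ}

/-- The polynomial that is `1` if the variable `v` has the value `β`. -/
noncomputable def lit (v : Fin n) (β : Bool) : MvPolynomial (Fin n) ℤ :=
  if β = true then X v else 1 - X v

lemma lit_degree (v : Fin n) (β : Bool) : (lit v β).totalDegree ≤ 1 := by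
  unfold lit
  split_ifs
  · exact (totalDegree_X v).le
  · refine (totalDegree_sub _ _).trans ?_
    rw [totalDegree_one, totalDegree_X]
    exact le_of_eq rfl

lemma lit_support (v : Fin n) (β : Bool) : (lit v β).support.card ≤ 2 := by
  classical
  unfold lit
  split_ifs
  · have h := support_X (R := ℤ) (n := v)
    rw [h]
    simp
  · have h1 : (1 - X v : MvPolynomial (Fin n) ℤ).support ⊆
        (1 : MvPolynomial (Fin n) ℤ).support ∪ (X v : MvPolynomial (Fin n) ℤ).support :=
      support_sub _ _ _
    have h2 : (1 : MvPolynomial (Fin n) ℤ).support.card ≤ 1 := by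
      rw [support_one]
      simp
    have h3 : (X v : MvPolynomial (Fin n) ℤ).support.card ≤ 1 := by
      rw [support_X (R := ℤ) (n := v)]
      simp
    calc _ ≤ _ := Finset.card_le_card h1
      _ ≤ _ := Finset.card_union_le _ _
      _ ≤ 2 := by omega

lemma card_support_mul (p q : MvPolynomial (Fin n) ℤ) :
    (p * q).support.card ≤ p.support.card * q.support.card := by
  classical
  refine (Finset.card_le_card (support_mul p q)).trans ?_
  exact Finset.card_add_le

lemma card_support_prod {κ : Type} (S : Finset κ) (f : κ → MvPolynomial (Fin n) ℤ) (B : ℕ)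
    (hB : ∀ k ∈ S, (f k).support.card ≤ B) : (∏ k ∈ S, f k).support.card ≤ B ^ S.card := by
  classical
  induction S using Finset.induction_on with
  | empty =>
    rw [Finset.prod_empty, Finset.card_empty, pow_zero, support_one]
    simp
  | insert a S ha ih =>
    rw [Finset.prod_insert ha, Finset.card_insert_of_notMem ha, pow_succ, mul_comm]
    refine (card_support_mul _ _).trans ?_
    exact Nat.mul_le_mul (ih fun k hk => hB k (Finset.mem_insert_of_mem hk))
      (hB a (Finset.mem_insert_self _ _)) |>.trans (le_of_eq rfl)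

lemma degree_prod {κ : Type} (S : Finset κ) (f : κ → MvPolynomial (Fin n) ℤ) (B : ℕ)
    (hB : ∀ k ∈ S, (f k).totalDegree ≤ B) : (∏ k ∈ S, f k).totalDegree ≤ S.card * B := by
  refine (totalDegree_finsetProd S f).trans ?_
  refine (Finset.sum_le_card_nsmul _ _ _ hB).trans ?_
  rw [smul_eq_mul]

variable {F : Type} [Field F]

lemma lit_eval {z : Fin n → F} {v : Fin n} {b : Bool} (hz : z v = if b = true then 1 else 0)
    (β : Bool) : aeval z (lit v β) = if b = β then (1 : F) else 0 := by
  unfold lit
  cases b <;> cases β <;> simp_all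

end Lit

section Enc
variable {m r ℓ n M : ℕ} (s : Fin m → Fin r → Fin m) (e : (Fin m × Fin ℓ) ↪ Fin n)
  (dec : (Fin ℓ → Bool) ≃ Fin (2 ^ ℓ))
  (π : Fin M → (Fin m × (Fin r → Fin (2 ^ ℓ))) ⊕ Fin n)

/-- The polynomial that is `1` on the assignments that agree with the tuple `a` on the scope
`i`. -/
noncomputable def tupPoly (ia : Fin m × (Fin r → Fin (2 ^ ℓ))) : MvPolynomial (Fin n) ℤ :=
  ∏ k : Fin r, ∏ t : Fin ℓ, lit (e (s ia.1 k, t)) (dec.symm (ia.2 k) t)

/-- The system of equations. -/
noncomputable def sysOf (Y : (Fin m × (Fin r → Fin (2 ^ ℓ))) → Bool) (c : Fin M) :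
    MvPolynomial (Fin n) ℤ :=
  match π c with
  | Sum.inl ia => if Y ia = true then 0 else tupPoly s e dec ia
  | Sum.inr v => X v ^ 2 - X v

lemma tup_degree (ia : Fin m × (Fin r → Fin (2 ^ ℓ))) :
    (tupPoly s e dec ia).totalDegree ≤ r * ℓ := by
  unfold tupPoly
  have h := degree_prod (univ : Finset (Fin r))
    (fun k => ∏ t : Fin ℓ, lit (e (s ia.1 k, t)) (dec.symm (ia.2 k) t)) ℓ (fun k _ => by
      have h := degree_prod (univ : Finset (Fin ℓ))
        (fun t => lit (e (s ia.1 k, t)) (dec.symm (ia.2 k) t)) 1 (fun t _ => lit_degree _ _)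
      rwa [Finset.card_univ, Fintype.card_fin, mul_one] at h)
  rwa [Finset.card_univ, Fintype.card_fin] at h

lemma tup_support (ia : Fin m × (Fin r → Fin (2 ^ ℓ))) :
    (tupPoly s e dec ia).support.card ≤ 2 ^ (r * ℓ) := by
  unfold tupPoly
  have h := card_support_prod (univ : Finset (Fin r))
    (fun k => ∏ t : Fin ℓ, lit (e (s ia.1 k, t)) (dec.symm (ia.2 k) t)) (2 ^ ℓ) (fun k _ => by
      have h := card_support_prod (univ : Finset (Fin ℓ))
        (fun t => lit (e (s ia.1 k, t)) (dec.symm (ia.2 k) t)) 2 (fun t _ => lit_support _ _)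
      rwa [Finset.card_univ, Fintype.card_fin] at h)
  rw [Finset.card_univ, Fintype.card_fin] at h
  rw [mul_comm, pow_mul]
  exact h

lemma sys_degree {w : ℕ} (hw : r * ℓ ≤ w) (hw2 : 2 ≤ w)
    (Y : (Fin m × (Fin r → Fin (2 ^ ℓ))) → Bool) (c : Fin M) :
    (sysOf s e dec π Y c).totalDegree ≤ w := by
  unfold sysOf
  cases h : π c with
  | inl ia =>
    dsimp only
    split_ifs
    · rw [totalDegree_zero]; omega
    · exact (tup_degree s e dec ia).trans hw
  | inr v =>
    dsimp only
    refine (totalDegree_sub _ _).trans ?_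
    have h1 : ((X v : MvPolynomial (Fin n) ℤ) ^ 2).totalDegree ≤ 2 := by
      refine (totalDegree_pow _ _).trans ?_
      rw [totalDegree_X]
    have h2 : ((X v : MvPolynomial (Fin n) ℤ)).totalDegree ≤ 2 := by
      rw [totalDegree_X]; omega
    exact (max_le h1 h2).trans hw2

lemma sys_support {w : ℕ} (hw : r * ℓ ≤ w) (hw2 : 1 ≤ w)
    (Y : (Fin m × (Fin r → Fin (2 ^ ℓ))) → Bool) (c : Fin M) :
    (sysOf s e dec π Y c).support.card ≤ 2 ^ w := by
  classical
  unfold sysOf
  cases h : π c with
  | inl ia =>
    dsimp only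
    split_ifs
    · rw [support_zero, Finset.card_empty]
      exact Nat.zero_le _
    · exact (tup_support s e dec ia).trans (Nat.pow_le_pow_right (by norm_num) hw)
  | inr v =>
    dsimp only
    have h1 : ((X v : MvPolynomial (Fin n) ℤ) ^ 2 - X v).support ⊆
        ((X v : MvPolynomial (Fin n) ℤ) ^ 2).support ∪ (X v : MvPolynomial (Fin n) ℤ).support :=
      support_sub _ _ _
    have h2 : ((X v : MvPolynomial (Fin n) ℤ) ^ 2).support.card ≤ 1 := by
      rw [X_pow_eq_monomial]
      refine (Finset.card_le_card support_monomial_subset).trans ?_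
      simp
    have h3 : (X v : MvPolynomial (Fin n) ℤ).support.card ≤ 1 := by
      rw [support_X (R := ℤ) (n := v)]
      simp
    have h4 : 2 ^ 1 ≤ 2 ^ w := Nat.pow_le_pow_right (by norm_num) hw2
    calc _ ≤ _ := Finset.card_le_card h1
      _ ≤ _ := Finset.card_union_le _ _
      _ ≤ 2 ^ w := by omega

lemma sys_one {F : Type} [Field F] (j : Fin M × (Fin n →₀ ℕ)) :
    One (fun Y : (Fin m × (Fin r → Fin (2 ^ ℓ))) → Bool =>
      ((coeff j.2 (sysOf s e dec π Y j.1) : ℤ) : F)) := by
  cases h : π j.1 with
  | inl ia =>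
    refine Or.inr ⟨ia, fun b => ((coeff j.2 (if b = true then 0 else tupPoly s e dec ia) : ℤ) : F),
      fun Y => ?_⟩
    unfold sysOf
    rw [h]
  | inr v =>
    refine Or.inl ⟨((coeff j.2 (X v ^ 2 - X v) : ℤ) : F), fun Y => ?_⟩
    unfold sysOf
    rw [h]

lemma sys_sat {F : Type} [Field F] (hπ : Function.Surjective π)
    (Y : (Fin m × (Fin r → Fin (2 ^ ℓ))) → Bool) :
    Sat s Y ↔ ∃ z : Fin n → F, ∀ c, aeval z (sysOf s e dec π Y c) = 0 := by
  classical
  constructor
  · rintro ⟨a, ha⟩
    obtain ⟨z, hz⟩ : ∃ z : Fin n → F, z = fun v =>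
      if ∃ j t, e (j, t) = v ∧ dec.symm (a j) t = true then 1 else 0 := ⟨_, rfl⟩
    have hz2 : ∀ j t, z (e (j, t)) = if dec.symm (a j) t = true then 1 else 0 := by
      intro j t
      rw [hz]
      dsimp only
      by_cases h : dec.symm (a j) t = true
      · rw [if_pos h, if_pos ⟨j, t, rfl, h⟩]
      · rw [if_neg h, if_neg]
        rintro ⟨j', t', h1, h2⟩
        have h3 := e.injective h1
        rw [Prod.mk.injEq] at h3
        rw [h3.1, h3.2] at h2
        exact h h2
    refine ⟨z, fun c => ?_⟩
    unfold sysOf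
    cases h : π c with
    | inl ia =>
      dsimp only
      split_ifs with hY
      · exact map_zero _
      · unfold tupPoly
        have hne : ia.2 ≠ fun k => a (s ia.1 k) := by
          intro heq
          apply hY
          have := ha ia.1
          rw [← heq] at this
          exact this
        obtain ⟨k, hk⟩ := Function.ne_iff.1 hne
        have hne2 : dec.symm (ia.2 k) ≠ dec.symm (a (s ia.1 k)) := fun h =>
          hk (dec.symm.injective h)
        obtain ⟨t, ht⟩ := Function.ne_iff.1 hne2
        rw [map_prod]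
        apply Finset.prod_eq_zero (Finset.mem_univ k)
        rw [map_prod]
        apply Finset.prod_eq_zero (Finset.mem_univ t)
        rw [lit_eval (hz2 _ _), if_neg]
        exact fun h => ht h.symm
    | inr v =>
      dsimp only
      rw [map_sub, map_pow, aeval_X, hz]
      dsimp only
      split_ifs <;> norm_num
  · rintro ⟨z, hz⟩
    have h01 : ∀ v, z v = 0 ∨ z v = 1 := by
      intro v
      obtain ⟨c, hc⟩ := hπ (Sum.inr v)
      have h := hz c
      unfold sysOf at h
      rw [hc] at h
      dsimp only at h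
      rw [map_sub, map_pow, aeval_X] at h
      have h2 : z v * (z v - 1) = 0 := by rw [← h]; ring
      rcases mul_eq_zero.1 h2 with h3 | h3
      · exact Or.inl h3
      · exact Or.inr (sub_eq_zero.1 h3)
    obtain ⟨β, hβ⟩ : ∃ β : Fin n → Bool, ∀ v, z v = if β v = true then 1 else 0 := by
      refine ⟨fun v => decide (z v = 1), fun v => ?_⟩
      rcases h01 v with h | h
      · simp [h]
      · simp [h]
    refine ⟨fun j => dec (fun t => β (e (j, t))), fun i => ?_⟩
    by_contra hne
    obtain ⟨c, hc⟩ := hπ (Sum.inl (i, fun k => dec (fun t => β (e (s i k, t)))))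
    have h := hz c
    unfold sysOf at h
    rw [hc] at h
    dsimp only at h
    rw [if_neg hne] at h
    unfold tupPoly at h
    rw [map_prod] at h
    obtain ⟨k, _, hk⟩ := Finset.prod_eq_zero_iff.1 h
    rw [map_prod] at hk
    obtain ⟨t, _, ht⟩ := Finset.prod_eq_zero_iff.1 hk
    rw [lit_eval (hβ _)] at ht
    dsimp only at ht
    rw [Equiv.symm_apply_apply, if_pos rfl] at ht
    exact one_ne_zero ht

end Enc

end Pool.Agent.W964.Wd
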