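import Mathlib

/-!
The choice of the parameters for quadratic systems.
-/

set_option linter.unusedSectionVars false

namespace Pool.Agent.W964.Wd

open Filter

/-- The choice of the parameters. -/
theorem poly_params (C : ℝ) (hC : 0 < C) : ∃ c : ℝ, 0 < c ∧ ∃ n₁ : ℕ, 3 ≤ n₁ ∧
    ∀ n T : ℕ, n₁ ≤ n → 1 ≤ T → T * Real.log (Real.log n) ≤ c * Real.log n →
    ∃ n₀ w : ℕ, 2 ≤ n₀ ∧ C * (T * Real.log n₀) ≤ w ∧ w ≤ n₀ ∧
      n₀ * 2 ^ w * (w + 1) ≤ n ∧ (n : ℝ) ^ (c / T) ≤ n₀ / 2 ∧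
      (2 : ℝ) ^ (-((w : ℝ) / C)) ≤ (n : ℝ) ^ (-c) := by
  obtain ⟨a, ha⟩ : ∃ a : ℝ, a = 1 / (2 * (1 + C)) := ⟨_, rfl⟩
  have ha0 : 0 < a := by rw [ha]; positivity
  have haC : a * (1 + C) = 1 / 2 := by rw [ha]; field_simp
  obtain ⟨c, hc⟩ : ∃ c : ℝ, c = a / 4 := ⟨_, rfl⟩
  have hc0 : 0 < c := by rw [hc]; positivity
  have hlog : Tendsto (fun n : ℕ => Real.log (n : ℝ)) atTop atTop :=
    Real.tendsto_log_atTop.comp tendsto_natCast_atTop_atTop
  have e1 : ∀ᶠ n : ℕ in atTop, 8 ≤ Real.log (n : ℝ) := hlog.eventually (eventually_ge_atTop 8)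
  have e2 : ∀ᶠ n : ℕ in atTop, ‖Real.log (Real.log (n : ℝ) + 4)‖ ≤
      1 / 8 * ‖Real.log (n : ℝ) + 4‖ := by
    have h : Tendsto (fun n : ℕ => Real.log (n : ℝ) + 4) atTop atTop :=
      tendsto_atTop_add_const_right _ _ hlog
    exact h.eventually (Real.isLittleO_log_id_atTop.bound (by norm_num : (0 : ℝ) < 1 / 8))
  obtain ⟨n₁, hn₁⟩ := eventually_atTop.1 (e1.and e2)
  refine ⟨c, hc0, max n₁ 3, le_max_right _ _, ?_⟩
  intro n T hn hT hTn
  obtain ⟨h1, h2⟩ := hn₁ n ((le_max_left _ _).trans hn)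
  have hn3 : 3 ≤ n := (le_max_right _ _).trans hn
  have hnR : (3 : ℝ) ≤ n := by exact_mod_cast hn3
  have hn0 : (0 : ℝ) < n := by linarith
  obtain ⟨L, hL⟩ : ∃ L : ℝ, L = Real.log n := ⟨_, rfl⟩
  rw [← hL] at h1 h2 hTn
  have hT0 : (0 : ℝ) < T := by exact_mod_cast hT
  have hT1 : (1 : ℝ) ≤ T := by exact_mod_cast hT
  have hL0 : 0 < L := by linarith
  -- `L ^ 4 ≤ n ^ (a / T)`
  have hpow : ∀ y : ℝ, (n : ℝ) ^ y = Real.exp (L * y) := by
    intro y
    rw [Real.rpow_def_of_pos hn0, hL]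
  have hloglog : Real.log L ≤ c * L / T := by
    rw [le_div_iff₀ hT0]
    linarith
  have hL1 : L ≤ (n : ℝ) ^ (c / T) := by
    rw [hpow]
    calc L = Real.exp (Real.log L) := (Real.exp_log hL0).symm
      _ ≤ Real.exp (L * (c / T)) := by
          apply Real.exp_le_exp.2
          refine hloglog.trans (le_of_eq ?_)
          ring
  have hpow4 : (n : ℝ) ^ (a / T) = ((n : ℝ) ^ (c / T)) ^ 4 := by
    rw [← Real.rpow_natCast ((n : ℝ) ^ (c / T)) 4, ← Real.rpow_mul hn0.le]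
    congr 1
    rw [hc]
    push_cast
    ring
  obtain ⟨Z, hZ⟩ : ∃ Z : ℝ, Z = (n : ℝ) ^ (c / T) := ⟨_, rfl⟩
  rw [← hZ] at hL1 hpow4
  have hZ8 : 8 ≤ Z := h1.trans hL1
  obtain ⟨n₀, hn₀⟩ : ∃ n₀ : ℕ, n₀ = ⌊(n : ℝ) ^ (a / T)⌋₊ := ⟨_, rfl⟩
  have hn₀le : (n₀ : ℝ) ≤ (n : ℝ) ^ (a / T) := by
    rw [hn₀]; exact Nat.floor_le (by positivity)
  have hn₀ge : (n : ℝ) ^ (a / T) - 1 ≤ n₀ := by
    rw [hn₀]
    have := Nat.lt_floor_add_one ((n : ℝ) ^ (a / T))
    linarith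
  have hZ4 : Z ^ 4 - 1 ≤ n₀ := by rw [← hpow4]; exact hn₀ge
  have hZsq : 8 * Z ≤ Z ^ 2 := by nlinarith
  have hZ42 : Z ^ 2 * 64 ≤ Z ^ 4 := by
    have : 64 ≤ Z ^ 2 := by nlinarith
    nlinarith
  have hn₀2 : (2 : ℝ) ≤ n₀ := by nlinarith
  have hlogn₀ : T * Real.log n₀ ≤ a * L := by
    have h3 : Real.log n₀ ≤ L * (a / T) := by
      rw [Real.log_le_iff_le_exp (by linarith), ← hpow]
      exact hn₀le
    calc T * Real.log n₀ ≤ T * (L * (a / T)) := mul_le_mul_of_nonneg_left h3 hT0.le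
      _ = a * L := by field_simp
  obtain ⟨w, hw⟩ : ∃ w : ℕ, w = ⌈C * (a * L)⌉₊ := ⟨_, rfl⟩
  have hwge : C * (a * L) ≤ w := by rw [hw]; exact Nat.le_ceil _
  have hwle : (w : ℝ) ≤ C * (a * L) + 1 := by
    rw [hw]; exact (Nat.ceil_lt_add_one (by positivity)).le
  have hCa : C * a ≤ 1 / 2 := by nlinarith
  have ha2 : a ≤ 1 / 2 := by nlinarith
  have hwL : (w : ℝ) ≤ C * a * L + 1 := by nlinarith
  have hwL2 : (w : ℝ) ≤ L / 2 + 1 := by nlinarith
  refine ⟨n₀, w, by exact_mod_cast hn₀2, ?_, ?_, ?_, ?_, ?_⟩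
  · refine le_trans ?_ hwge
    exact mul_le_mul_of_nonneg_left hlogn₀ hC.le
  · have : (w : ℝ) ≤ n₀ := by nlinarith
    exact_mod_cast this
  · have h3 : ((n₀ * 2 ^ w * (w + 1) : ℕ) : ℝ) ≤ n := by
      push_cast
      have h4 : (n₀ : ℝ) ≤ Real.exp (L * a) := by
        refine hn₀le.trans ?_
        rw [hpow]
        apply Real.exp_le_exp.2
        apply mul_le_mul_of_nonneg_left _ hL0.le
        exact div_le_self ha0.le hT1
      have hl2 : Real.log 2 ≤ 1 := by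
        have := Real.log_two_lt_d9
        linarith
      have h5 : (2 : ℝ) ^ w ≤ Real.exp (C * a * L + 1) := by
        rw [← Real.rpow_natCast, Real.rpow_def_of_pos (by norm_num)]
        apply Real.exp_le_exp.2
        calc Real.log 2 * w ≤ 1 * w := by gcongr
          _ ≤ _ := by linarith
      have h6 : ((w : ℝ) + 1) ≤ Real.exp ((L + 4) / 8) := by
        have h7 : (w : ℝ) + 1 ≤ L + 4 := by linarith
        refine h7.trans ?_
        rw [Real.norm_of_nonneg (Real.log_nonneg (by linarith)),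
          Real.norm_of_nonneg (by linarith)] at h2
        calc L + 4 = Real.exp (Real.log (L + 4)) := (Real.exp_log (by linarith)).symm
          _ ≤ Real.exp ((L + 4) / 8) := by
              apply Real.exp_le_exp.2
              linarith
      have h8 : Real.exp (L * a) * Real.exp (C * a * L + 1) * Real.exp ((L + 4) / 8) ≤ n := by
        rw [← Real.exp_add, ← Real.exp_add]
        have h9 : (n : ℝ) = Real.exp L := by rw [hL, Real.exp_log hn0]
        rw [h9]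
        apply Real.exp_le_exp.2
        have h10 : L * a + C * a * L = L / 2 := by
          have : L * a + C * a * L = L * (a * (1 + C)) := by ring
          rw [this, haC]; ring
        linarith
      refine le_trans ?_ h8
      gcongr
    exact_mod_cast h3
  · rw [← hZ]
    nlinarith
  · rw [Real.rpow_def_of_pos (by norm_num : (0 : ℝ) < 2), hpow]
    apply Real.exp_le_exp.2
    have hl2 : (1 : ℝ) / 2 ≤ Real.log 2 := by
      have := Real.log_two_gt_d9
      linarith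
    have h3 : a * L ≤ w / C := by
      rw [le_div_iff₀ hC]
      linarith
    have h4 : (1 / 2) * (a * L) ≤ Real.log 2 * (w / C) :=
      mul_le_mul hl2 h3 (by positivity) (by positivity)
    rw [hc]
    nlinarith

end Pool.Agent.W964.Wd
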