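import Mathlib
import Pool.Agent.W964.Wd.Hn.Enc

/-!
Systems of polynomial equations are hard for parallel machines.
-/

set_option linter.unusedSectionVars false

namespace Pool.Agent.W964.Wd

open Finset H568R2 H592R3 Pool.Agent.W964.Pram MvPolynomial

/-- The number of equations. -/
lemma count_eqs (Q D b m' n w M : ℕ) (hQ6 : 6 ≤ Q) (hD : 1 ≤ D) (hb : 1 ≤ b) (hm' : 2 ≤ m')
    (hn : 2 ≤ n) (hBw : ar Q * (2 * D * b) + 1 ≤ w)
    (hQn : Q * m' * (2 * D * b + 1) ≤ n) (hM : n * 2 ^ w ≤ M) :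
    Q * m' * (2 ^ (2 * D * b)) ^ ar Q + n ≤ M := by
  have hdt : 1 ≤ D * b := Nat.one_le_iff_ne_zero.2 (by positivity)
  have hℓ2 : 2 ≤ 2 * D * b := by
    have : 2 * D * b = 2 * (D * b) := by ring
    omega
  have hcard1 : Q * m' * (2 * D * b) ≤ n := by
    refine le_trans ?_ hQn
    exact Nat.mul_le_mul_left _ (by omega)
  have har : 1 ≤ ar Q := by unfold ar; omega
  have hB1 : 2 ≤ ar Q * (2 * D * b) := by
    calc 2 ≤ 2 * D * b := hℓ2
      _ = 1 * (2 * D * b) := (one_mul _).symm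
      _ ≤ _ := Nat.mul_le_mul_right _ har
  refine le_trans ?_ hM
  have h1 : (2 ^ (2 * D * b)) ^ ar Q ≤ 2 ^ w := by
    rw [← pow_mul]
    apply Nat.pow_le_pow_right (by norm_num)
    rw [mul_comm]; omega
  have h2 : 2 * (Q * m') ≤ n := by
    refine le_trans ?_ hcard1
    rw [mul_comm]
    exact Nat.mul_le_mul_left _ hℓ2
  have h3 : 2 ≤ 2 ^ w := by
    calc 2 = 2 ^ 1 := (pow_one 2).symm
      _ ≤ 2 ^ w := Nat.pow_le_pow_right (by norm_num) (by omega)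
  have h4 : 2 * (Q * m' * (2 ^ (2 * D * b)) ^ ar Q) ≤ n * 2 ^ w := by
    calc 2 * (Q * m' * (2 ^ (2 * D * b)) ^ ar Q) =
        (2 * (Q * m')) * (2 ^ (2 * D * b)) ^ ar Q := by ring
      _ ≤ n * 2 ^ w := Nat.mul_le_mul h2 h1
  have h5 : 2 * n ≤ n * 2 ^ w := by
    rw [mul_comm]; exact Nat.mul_le_mul_left _ h3
  omega

/-- Randomized machines over a field fail on some system of polynomial equations. -/
theorem hn_rand (ε : ℝ) (hε : 0 < ε) (K : ℕ) : ∃ C : ℝ, 0 < C ∧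
    ∀ n T w M : ℕ, 2 ≤ n → 1 ≤ T → C * (T * Real.log n) ≤ w → w ≤ n → n * 2 ^ w ≤ M →
    ∀ (F : Type) [Field F] (P : ℕ) (R : RandMachine F (Fin M × (Fin n →₀ ℕ)) P),
      (P : ℝ) ≤ 2 ^ ((1 - ε) * n) → R.Lists (2 ^ (K * n)) →
      ∃ f : Fin M → MvPolynomial (Fin n) ℤ,
        (∀ c, (f c).totalDegree ≤ w ∧ (f c).support.card ≤ 2 ^ w) ∧
        R.success T (fun j => ((coeff j.2 (f j.1) : ℤ) : F))
          (∃ z : Fin n → F, ∀ c, aeval z (f c) = 0) ≤
          1 / 2 + (2 : ℝ) ^ (-((w : ℝ) / C)) := by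
  obtain ⟨Q, hQ6, C, hC, H⟩ := gen_rand ε hε K
  refine ⟨C, hC, ?_⟩
  intro n T w M hn hT hw hwn hM F _ P R hP hR
  obtain ⟨b, m', hb, hm', hBw, hQn, s, hs, H2⟩ := H n T w hn hT hw hwn
  have hn0 : 0 < n := by omega
  have hTb : 1 ≤ T * b := Nat.one_le_iff_ne_zero.2 (by positivity)
  have hl : 2 ≤ 2 * (3 * T) * b := by
    have : 2 * (3 * T) * b = 6 * (T * b) := by ring
    omega
  have har : 1 ≤ ar Q := by unfold ar; omega
  have hw2 : 2 ≤ w := by
    have h1 : 1 * 2 ≤ ar Q * (2 * (3 * T) * b) := Nat.mul_le_mul har hl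
    omega
  obtain ⟨e⟩ : Nonempty ((Fin (Q * m') × Fin (2 * (3 * T) * b)) ↪ Fin n) := by
    apply Function.Embedding.nonempty_of_card_le
    rw [Fintype.card_prod, Fintype.card_fin, Fintype.card_fin, Fintype.card_fin]
    refine le_trans ?_ hQn
    exact Nat.mul_le_mul_left _ (by omega)
  obtain ⟨dec⟩ : Nonempty ((Fin (2 * (3 * T) * b) → Bool) ≃ Fin (2 ^ (2 * (3 * T) * b))) :=
    ⟨Fintype.equivFinOfCardEq (by simp)⟩
  have hcard := count_eqs Q (3 * T) b m' n w M hQ6 (by omega) hb hm' hn hBw hQn hM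
  obtain ⟨π, hπ⟩ : ∃ π : Fin M → (Fin (Q * m') × (Fin (ar Q) →
      Fin (2 ^ (2 * (3 * T) * b)))) ⊕ Fin n, Function.Surjective π := by
    have : Nonempty ((Fin (Q * m') × (Fin (ar Q) →
      Fin (2 ^ (2 * (3 * T) * b)))) ⊕ Fin n) := ⟨Sum.inr ⟨0, hn0⟩⟩
    obtain ⟨g⟩ : Nonempty (((Fin (Q * m') × (Fin (ar Q) →
      Fin (2 ^ (2 * (3 * T) * b)))) ⊕ Fin n) ↪ Fin M) := by
      apply Function.Embedding.nonempty_of_card_le
      rw [Fintype.card_sum, Fintype.card_prod, Fintype.card_fun, Fintype.card_fin,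
        Fintype.card_fin, Fintype.card_fin, Fintype.card_fin, Fintype.card_fin]
      exact hcard
    exact ⟨Function.invFun g, Function.invFun_surjective g.injective⟩
  obtain ⟨X, hX⟩ := H2 F (Fin M × (Fin n →₀ ℕ))
    (fun Y j => ((coeff j.2 (sysOf s e dec π Y j.1) : ℤ) : F))
    (fun j => sys_one s e dec π j) P R hP hR
  refine ⟨sysOf s e dec π X, fun c => ⟨sys_degree s e dec π (by omega) hw2 X c,
    sys_support s e dec π (by omega) (by omega) X c⟩, ?_⟩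
  rw [sys_sat (F := F) s e dec π hπ X] at hX
  exact hX

end Pool.Agent.W964.Wd
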