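import Mathlib
import Pool.Agent.W964.Wd.Hn.Main

/-!
The encoding of the constraint satisfaction problems as systems of quadratic equations.
-/

set_option linter.unusedSectionVars false

namespace Pool.Agent.W964.Wd

open Finset H568R2 H592R3 Pool.Agent.W964.Pram MvPolynomial

/-- A constraint and a tuple. -/
abbrev Leaf (m r ℓ : ℕ) : Type := Fin m × (Fin r → Fin (2 ^ ℓ))

/-- The unknowns. -/
abbrev Unk (m r ℓ n0 : ℕ) : Type := Fin n0 ⊕ (Leaf m r ℓ × Fin (r * ℓ))

/-- The equations. -/
abbrev Eqn (m r ℓ n0 : ℕ) : Type := Unk m r ℓ n0 ⊕ Leaf m r ℓ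

section Quad
variable {m r ℓ n0 n E : ℕ} (s : Fin m → Fin r → Fin m) (e : (Fin m × Fin ℓ) ↪ Fin n0)
  (dec : (Fin ℓ → Bool) ≃ Fin (2 ^ ℓ)) (g : Unk m r ℓ n0 ↪ Fin n) (hL : 0 < r * ℓ)
  (π : Fin E → Eqn m r ℓ n0)

/-- The literals of a tuple. -/
def litOf (ia : Leaf m r ℓ) (u : Fin (r * ℓ)) : Fin n0 × Bool :=
  (e (s ia.1 (finProdFinEquiv.symm u).1, (finProdFinEquiv.symm u).2),
    dec.symm (ia.2 (finProdFinEquiv.symm u).1) (finProdFinEquiv.symm u).2)

/-- The preceding partial product. -/
noncomputable def prevP (ia : Leaf m r ℓ) (u : Fin (r * ℓ)) : MvPolynomial (Fin n) ℤ :=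
  if (u : ℕ) = 0 then 1 else X (g (Sum.inr (ia, ⟨(u : ℕ) - 1, by omega⟩)))

/-- The system of quadratic equations. -/
noncomputable def quadOf (Y : Leaf m r ℓ → Bool) (c : Fin E) : MvPolynomial (Fin n) ℤ :=
  match π c with
  | Sum.inl (Sum.inl v) => X (g (Sum.inl v)) ^ 2 - X (g (Sum.inl v))
  | Sum.inl (Sum.inr (ia, u)) => X (g (Sum.inr (ia, u))) -
      prevP g ia u * lit (g (Sum.inl (litOf s e dec ia u).1)) (litOf s e dec ia u).2
  | Sum.inr ia => if Y ia = true then 0 else
      X (g (Sum.inr (ia, ⟨r * ℓ - 1, by omega⟩)))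

lemma prevP_degree (ia : Leaf m r ℓ) (u : Fin (r * ℓ)) : (prevP g ia u).totalDegree ≤ 1 := by
  unfold prevP
  split_ifs
  · rw [totalDegree_one]; omega
  · rw [totalDegree_X]

lemma card_support_X (v : Fin n) : (X v : MvPolynomial (Fin n) ℤ).support.card ≤ 1 := by
  rw [support_X (R := ℤ) (n := v)]
  simp

lemma prevP_support (ia : Leaf m r ℓ) (u : Fin (r * ℓ)) :
    (prevP g ia u).support.card ≤ 1 := by
  unfold prevP
  split_ifs
  · rw [support_one]; simp
  · exact card_support_X _

lemma quad_degree (Y : Leaf m r ℓ → Bool) (c : Fin E) :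
    (quadOf s e dec g hL π Y c).totalDegree ≤ 2 := by
  unfold quadOf
  cases h : π c with
  | inl x =>
    cases x with
    | inl v =>
      dsimp only
      refine (totalDegree_sub _ _).trans ?_
      have h1 : ((X (g (Sum.inl v)) : MvPolynomial (Fin n) ℤ) ^ 2).totalDegree ≤ 2 := by
        refine (totalDegree_pow _ _).trans ?_
        rw [totalDegree_X]
      have h2 : ((X (g (Sum.inl v)) : MvPolynomial (Fin n) ℤ)).totalDegree ≤ 2 := by
        rw [totalDegree_X]; omega
      exact max_le h1 h2
    | inr iu =>
      obtain ⟨ia, u⟩ := iu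
      dsimp only
      refine (totalDegree_sub _ _).trans (max_le ?_ ?_)
      · rw [totalDegree_X]; omega
      · refine (totalDegree_mul _ _).trans ?_
        have h1 := prevP_degree g ia u
        have h2 := lit_degree (g (Sum.inl (litOf s e dec ia u).1)) (litOf s e dec ia u).2
        omega
  | inr ia =>
    dsimp only
    split_ifs
    · rw [totalDegree_zero]; omega
    · rw [totalDegree_X]; omega

lemma quad_support (Y : Leaf m r ℓ → Bool) (c : Fin E) :
    (quadOf s e dec g hL π Y c).support.card ≤ 3 := by
  classical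
  have key : ∀ p q : MvPolynomial (Fin n) ℤ, (p - q).support.card ≤
      p.support.card + q.support.card := fun p q =>
    (Finset.card_le_card (support_sub _ p q)).trans (Finset.card_union_le _ _)
  unfold quadOf
  cases h : π c with
  | inl x =>
    cases x with
    | inl v =>
      dsimp only
      refine (key _ _).trans ?_
      have h2 : ((X (g (Sum.inl v)) : MvPolynomial (Fin n) ℤ) ^ 2).support.card ≤ 1 := by
        rw [X_pow_eq_monomial]
        refine (Finset.card_le_card support_monomial_subset).trans ?_
        simp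
      have h3 := card_support_X (g (Sum.inl v))
      omega
    | inr iu =>
      obtain ⟨ia, u⟩ := iu
      dsimp only
      refine (key _ _).trans ?_
      have h1 := card_support_X (g (Sum.inr (ia, u)))
      have h2 := card_support_mul (prevP g ia u)
        (lit (g (Sum.inl (litOf s e dec ia u).1)) (litOf s e dec ia u).2)
      have h3 := prevP_support g ia u
      have h4 := lit_support (g (Sum.inl (litOf s e dec ia u).1)) (litOf s e dec ia u).2
      have h5 := Nat.mul_le_mul h3 h4
      omega
  | inr ia =>
    dsimp only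
    split_ifs
    · rw [support_zero, Finset.card_empty]; omega
    · have := card_support_X (g (Sum.inr (ia, (⟨r * ℓ - 1, by omega⟩ : Fin (r * ℓ)))))
      omega

lemma quad_one {F : Type} [Field F] (j : Fin E × (Fin n →₀ ℕ)) :
    One (fun Y : Leaf m r ℓ → Bool =>
      ((coeff j.2 (quadOf s e dec g hL π Y j.1) : ℤ) : F)) := by
  cases h : π j.1 with
  | inl x =>
    cases x with
    | inl v =>
      refine Or.inl ⟨((coeff j.2 (X (g (Sum.inl v)) ^ 2 - X (g (Sum.inl v))) : ℤ) : F),
        fun Y => ?_⟩
      unfold quadOf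
      rw [h]
    | inr iu =>
      obtain ⟨ia, u⟩ := iu
      refine Or.inl ⟨((coeff j.2 (X (g (Sum.inr (ia, u))) -
        prevP g ia u * lit (g (Sum.inl (litOf s e dec ia u).1)) (litOf s e dec ia u).2) : ℤ) : F),
        fun Y => ?_⟩
      unfold quadOf
      rw [h]
  | inr ia =>
    refine Or.inr ⟨ia, fun b => ((coeff j.2 (if b = true then 0 else
      X (g (Sum.inr (ia, (⟨r * ℓ - 1, by omega⟩ : Fin (r * ℓ)))))) : ℤ) : F), fun Y => ?_⟩
    unfold quadOf
    rw [h]

lemma quad_sat {F : Type} [Field F] (hπ : Function.Surjective π) (Y : Leaf m r ℓ → Bool) :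
    Sat s Y ↔ ∃ z : Fin n → F, ∀ c, aeval z (quadOf s e dec g hL π Y c) = 0 := by
  classical
  constructor
  · rintro ⟨a, ha⟩
    -- the assignment
    obtain ⟨β, hβ⟩ : ∃ β : Fin n0 → Bool, ∀ j t, β (e (j, t)) = dec.symm (a j) t := by
      refine ⟨fun v => decide (∃ j t, e (j, t) = v ∧ dec.symm (a j) t = true), fun j t => ?_⟩
      dsimp only
      cases h : dec.symm (a j) t with
      | true => exact decide_eq_true ⟨j, t, rfl, h⟩
      | false =>
        refine decide_eq_false ?_
        rintro ⟨j', t', h1, h2⟩
        have h3 := e.injective h1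
        rw [Prod.mk.injEq] at h3
        rw [h3.1, h3.2, h] at h2
        exact Bool.false_ne_true h2
    obtain ⟨ok, hok⟩ : ∃ ok : Leaf m r ℓ → ℕ → Prop, ok = fun ia k =>
      ∀ u : Fin (r * ℓ), (u : ℕ) < k → β (litOf s e dec ia u).1 = (litOf s e dec ia u).2 :=
      ⟨_, rfl⟩
    obtain ⟨z, hz1, hz2⟩ : ∃ z : Fin n → F,
        (∀ v, z (g (Sum.inl v)) = if β v = true then 1 else 0) ∧
        (∀ ia (u : Fin (r * ℓ)), z (g (Sum.inr (ia, u))) =
          if ok ia ((u : ℕ) + 1) then 1 else 0) := by
      obtain ⟨z0, hz0⟩ : ∃ z0 : Unk m r ℓ n0 → F, z0 = fun x => match x with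
        | Sum.inl v => if β v = true then 1 else 0
        | Sum.inr (ia, u) => if ok ia ((u : ℕ) + 1) then 1 else 0 := ⟨_, rfl⟩
      refine ⟨Function.extend g z0 0, fun v => ?_, fun ia u => ?_⟩
      · rw [g.injective.extend_apply, hz0]
      · rw [g.injective.extend_apply, hz0]
    refine ⟨z, fun c => ?_⟩
    unfold quadOf
    cases h : π c with
    | inl x =>
      cases x with
      | inl v =>
        dsimp only
        rw [map_sub, map_pow, aeval_X, hz1]
        split_ifs <;> norm_num
      | inr iu =>
        obtain ⟨ia, u⟩ := iu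
        dsimp only
        rw [map_sub, map_mul, aeval_X, lit_eval (hz1 _), hz2]
        have hprev : aeval z (prevP g ia u) = if ok ia (u : ℕ) then (1 : F) else 0 := by
          unfold prevP
          by_cases hu : (u : ℕ) = 0
          · rw [if_pos hu, map_one, if_pos]
            rw [hok, hu]
            intro u' hu'
            omega
          · rw [if_neg hu, aeval_X, hz2]
            have : ((⟨(u : ℕ) - 1, by omega⟩ : Fin (r * ℓ)) : ℕ) + 1 = (u : ℕ) := by
              show (u : ℕ) - 1 + 1 = (u : ℕ)
              omega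
            rw [this]
        rw [hprev]
        have hiff : ok ia ((u : ℕ) + 1) ↔ ok ia (u : ℕ) ∧
            β (litOf s e dec ia u).1 = (litOf s e dec ia u).2 := by
          rw [hok]
          constructor
          · intro hh
            exact ⟨fun u' hu' => hh u' (by omega), hh u (by omega)⟩
          · rintro ⟨h1, h2⟩ u' hu'
            by_cases hh : (u' : ℕ) < u
            · exact h1 u' hh
            · have : u' = u := Fin.ext (by omega)
              rw [this]
              exact h2
        by_cases h1 : ok ia (u : ℕ)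
        · by_cases h2 : β (litOf s e dec ia u).1 = (litOf s e dec ia u).2
          · rw [if_pos (hiff.2 ⟨h1, h2⟩), if_pos h1, if_pos h2]
            norm_num
          · rw [if_neg (fun h => h2 (hiff.1 h).2), if_neg h2]
            norm_num
        · rw [if_neg (fun h => h1 (hiff.1 h).1), if_neg h1]
          norm_num
    | inr ia =>
      dsimp only
      split_ifs with hY
      · exact map_zero _
      · rw [aeval_X, hz2, if_neg]
        intro hall
        have hlast : ((⟨r * ℓ - 1, by omega⟩ : Fin (r * ℓ)) : ℕ) + 1 = r * ℓ := by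
          show r * ℓ - 1 + 1 = r * ℓ
          omega
        rw [hlast, hok] at hall
        apply hY
        have hia : ia.2 = fun k => a (s ia.1 k) := by
          funext k
          apply dec.symm.injective
          funext t
          have h1 := hall (finProdFinEquiv (k, t)) (Fin.is_lt _)
          unfold litOf at h1
          rw [Equiv.symm_apply_apply] at h1
          dsimp only at h1
          rw [hβ] at h1
          exact h1.symm
        have h2 := ha ia.1
        rw [← hia] at h2
        exact h2
  · rintro ⟨z, hz⟩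
    have h01 : ∀ v, z (g (Sum.inl v)) = 0 ∨ z (g (Sum.inl v)) = 1 := by
      intro v
      obtain ⟨c, hc⟩ := hπ (Sum.inl (Sum.inl v))
      have h := hz c
      unfold quadOf at h
      rw [hc] at h
      dsimp only at h
      rw [map_sub, map_pow, aeval_X] at h
      have h2 : z (g (Sum.inl v)) * (z (g (Sum.inl v)) - 1) = 0 := by rw [← h]; ring
      rcases mul_eq_zero.1 h2 with h3 | h3
      · exact Or.inl h3
      · exact Or.inr (sub_eq_zero.1 h3)
    obtain ⟨β, hβ⟩ : ∃ β : Fin n0 → Bool, ∀ v, z (g (Sum.inl v)) = if β v = true then 1 else 0 := by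
      refine ⟨fun v => decide (z (g (Sum.inl v)) = 1), fun v => ?_⟩
      rcases h01 v with h | h
      · simp [h]
      · simp [h]
    refine ⟨fun j => dec (fun t => β (e (j, t))), fun i => ?_⟩
    by_contra hne
    obtain ⟨ia, hia⟩ : ∃ ia : Leaf m r ℓ, ia = (i, fun k => dec (fun t => β (e (s i k, t)))) :=
      ⟨_, rfl⟩
    have hlit : ∀ u : Fin (r * ℓ), β (litOf s e dec ia u).1 = (litOf s e dec ia u).2 := by
      intro u
      unfold litOf
      rw [hia]
      dsimp only
      rw [Equiv.symm_apply_apply]
    have hall : ∀ k : ℕ, ∀ hk : k < r * ℓ, z (g (Sum.inr (ia, (⟨k, hk⟩ : Fin (r * ℓ))))) = 1 := by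
      intro k
      induction k with
      | zero =>
        intro hk
        obtain ⟨c, hc⟩ := hπ (Sum.inl (Sum.inr (ia, ⟨0, hk⟩)))
        have h := hz c
        unfold quadOf at h
        rw [hc] at h
        dsimp only at h
        rw [map_sub, map_mul, aeval_X, lit_eval (hβ _), if_pos (hlit _)] at h
        unfold prevP at h
        rw [if_pos rfl, map_one] at h
        linear_combination h
      | succ k ih =>
        intro hk
        obtain ⟨c, hc⟩ := hπ (Sum.inl (Sum.inr (ia, ⟨k + 1, hk⟩)))
        have h := hz c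
        unfold quadOf at h
        rw [hc] at h
        dsimp only at h
        rw [map_sub, map_mul, aeval_X, lit_eval (hβ _), if_pos (hlit _)] at h
        unfold prevP at h
        rw [if_neg (Nat.succ_ne_zero k), aeval_X] at h
        have h2 := ih (by omega)
        simp only [Nat.add_sub_cancel] at h
        rw [h2] at h
        linear_combination h
    obtain ⟨c, hc⟩ := hπ (Sum.inr ia)
    have h := hz c
    unfold quadOf at h
    rw [hc] at h
    dsimp only at h
    rw [if_neg (by rw [hia]; exact hne), aeval_X, hall] at h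
    exact one_ne_zero h

end Quad

end Pool.Agent.W964.Wd
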