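import Mathlib
import Pool.Agent.W964.Wd.Hn.Quad
import Pool.Agent.W964.Wd.Hn.Param

/-!
Systems of quadratic equations are hard for parallel machines.
-/

set_option linter.unusedSectionVars false

namespace Pool.Agent.W964.Wd

open Finset H568R2 H592R3 Pool.Agent.W964.Pram MvPolynomial Filter

lemma card_unk {m r ℓ n0 w n : ℕ} (hw : r * ℓ + 1 ≤ w) (hm : m * (ℓ + 1) ≤ n0)
    (hn : n0 * 2 ^ w * (w + 1) ≤ n) :
    n0 + m * (2 ^ ℓ) ^ r * (r * ℓ) ≤ n ∧ m * (2 ^ ℓ) ^ r ≤ n := by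
  have h1 : (2 ^ ℓ) ^ r ≤ 2 ^ w := by
    rw [← pow_mul]
    apply Nat.pow_le_pow_right (by norm_num)
    rw [mul_comm]; omega
  have h2 : m ≤ n0 := le_trans (Nat.le_mul_of_pos_right _ (Nat.succ_pos _)) hm
  have h3 : m * (2 ^ ℓ) ^ r ≤ n0 * 2 ^ w := Nat.mul_le_mul h2 h1
  have h4 : m * (2 ^ ℓ) ^ r * (r * ℓ) ≤ n0 * 2 ^ w * w :=
    Nat.mul_le_mul h3 (by omega)
  have h5 : n0 ≤ n0 * 2 ^ w := Nat.le_mul_of_pos_right _ (by positivity)
  have h6 : n0 * 2 ^ w * (w + 1) = n0 * 2 ^ w * w + n0 * 2 ^ w := by ring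
  constructor
  · omega
  · have : n0 * 2 ^ w ≤ n0 * 2 ^ w * (w + 1) := Nat.le_mul_of_pos_right _ (Nat.succ_pos _)
    omega

/-- Randomized machines over a field fail on some system of quadratic equations. -/
theorem quad_rand : ∃ c : ℝ, 0 < c ∧ ∃ n₁ : ℕ, 3 ≤ n₁ ∧
    ∀ n T : ℕ, n₁ ≤ n → 1 ≤ T → T * Real.log (Real.log n) ≤ c * Real.log n →
    ∀ (F : Type) [Field F] (P k : ℕ) (R : RandMachine F (Fin (2 * n) × (Fin n →₀ ℕ)) P),
      (P : ℝ) ≤ 2 ^ ((n : ℝ) ^ (c / T)) → R.Lists k → (k : ℝ) ≤ 2 ^ ((n : ℝ) ^ (c / T)) →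
      ∃ f : Fin (2 * n) → MvPolynomial (Fin n) ℤ,
        (∀ i, (f i).totalDegree ≤ 2 ∧ (f i).support.card ≤ 3) ∧
        R.success T (fun j => ((coeff j.2 (f j.1) : ℤ) : F))
          (∃ z : Fin n → F, ∀ i, aeval z (f i) = 0) ≤ 1 / 2 + (n : ℝ) ^ (-c) := by
  obtain ⟨Q, hQ6, C, hC, H⟩ := gen_rand (1 / 2) (by norm_num) 1
  obtain ⟨c, hc, n₁, hn₁, HP⟩ := poly_params C hC
  refine ⟨c, hc, n₁, hn₁, ?_⟩
  intro n T hn hT hTn F _ P k R hP hR hk
  obtain ⟨n₀, w, h2, hCw, hwn, hcount, hpow, hexp⟩ := HP n T hn hT hTn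
  obtain ⟨b, m', hb, hm', hBw, hQn, s, hs, H2⟩ := H n₀ T w h2 hT hCw hwn
  have hn0 : 0 < n := by omega
  have hTb : 1 ≤ T * b := Nat.one_le_iff_ne_zero.2 (by positivity)
  have hl : 2 ≤ 2 * (3 * T) * b := by
    have : 2 * (3 * T) * b = 6 * (T * b) := by ring
    omega
  have har : 1 ≤ ar Q := by unfold ar; omega
  have hL : 0 < ar Q * (2 * (3 * T) * b) := by positivity
  obtain ⟨hu, hleaf⟩ := card_unk (m := Q * m') (r := ar Q) (ℓ := 2 * (3 * T) * b) hBw hQn hcount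
  obtain ⟨e⟩ : Nonempty ((Fin (Q * m') × Fin (2 * (3 * T) * b)) ↪ Fin n₀) := by
    apply Function.Embedding.nonempty_of_card_le
    rw [Fintype.card_prod, Fintype.card_fin, Fintype.card_fin, Fintype.card_fin]
    refine le_trans ?_ hQn
    exact Nat.mul_le_mul_left _ (by omega)
  obtain ⟨dec⟩ : Nonempty ((Fin (2 * (3 * T) * b) → Bool) ≃ Fin (2 ^ (2 * (3 * T) * b))) :=
    ⟨Fintype.equivFinOfCardEq (by simp)⟩
  obtain ⟨g⟩ : Nonempty (Unk (Q * m') (ar Q) (2 * (3 * T) * b) n₀ ↪ Fin n) := by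
    apply Function.Embedding.nonempty_of_card_le
    rw [Fintype.card_sum, Fintype.card_prod, Fintype.card_prod, Fintype.card_fun,
      Fintype.card_fin, Fintype.card_fin, Fintype.card_fin, Fintype.card_fin, Fintype.card_fin,
      Fintype.card_fin]
    exact hu
  obtain ⟨π, hπ⟩ : ∃ π : Fin (2 * n) → Eqn (Q * m') (ar Q) (2 * (3 * T) * b) n₀,
      Function.Surjective π := by
    have : Nonempty (Eqn (Q * m') (ar Q) (2 * (3 * T) * b) n₀) :=
      ⟨Sum.inl (Sum.inl ⟨0, by omega⟩)⟩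
    obtain ⟨h⟩ : Nonempty (Eqn (Q * m') (ar Q) (2 * (3 * T) * b) n₀ ↪ Fin (2 * n)) := by
      apply Function.Embedding.nonempty_of_card_le
      rw [Fintype.card_sum, Fintype.card_sum, Fintype.card_prod, Fintype.card_prod,
        Fintype.card_fun, Fintype.card_fin, Fintype.card_fin, Fintype.card_fin, Fintype.card_fin,
        Fintype.card_fin, Fintype.card_fin]
      omega
    exact ⟨Function.invFun h, Function.invFun_surjective h.injective⟩
  have hk2 : k ≤ 2 ^ (1 * n₀) := by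
    have h1 : (k : ℝ) ≤ 2 ^ (n₀ : ℝ) := by
      refine hk.trans (Real.rpow_le_rpow_of_exponent_le (by norm_num) ?_)
      have : (0 : ℝ) ≤ n₀ := Nat.cast_nonneg _
      linarith
    rw [Real.rpow_natCast] at h1
    rw [one_mul]
    exact_mod_cast h1
  obtain ⟨X, hX⟩ := H2 F (Fin (2 * n) × (Fin n →₀ ℕ))
    (fun Y j => ((coeff j.2 (quadOf s e dec g hL π Y j.1) : ℤ) : F))
    (fun j => quad_one s e dec g hL π j) P R (by
      refine hP.trans (Real.rpow_le_rpow_of_exponent_le (by norm_num) ?_)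
      linarith) (fun ω q => (hR ω q).trans hk2)
  refine ⟨quadOf s e dec g hL π X, fun i => ⟨quad_degree s e dec g hL π X i,
    quad_support s e dec g hL π X i⟩, ?_⟩
  rw [quad_sat (F := F) s e dec g hL π hπ X] at hX
  exact hX.trans (by linarith)

/-- The asymptotic form. -/
theorem quad_asym (T : ℕ → ℕ) (hT : ∀ n, 1 ≤ T n)
    (hTo : (fun n : ℕ => (T n : ℝ) * Real.log (Real.log n)) =o[atTop]
      (fun n : ℕ => Real.log (n : ℝ))) (e : ℕ) :
    ∀ᶠ n : ℕ in atTop, ∀ (F : Type) [Field F] (P : ℕ)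
      (R : RandMachine F (Fin (2 * n) × (Fin n →₀ ℕ)) P), P ≤ n ^ e → R.Lists (n ^ e) →
      ∃ f : Fin (2 * n) → MvPolynomial (Fin n) ℤ,
        (∀ i, (f i).totalDegree ≤ 2 ∧ (f i).support.card ≤ 3) ∧
        R.success (T n) (fun j => ((coeff j.2 (f j.1) : ℤ) : F))
          (∃ z : Fin n → F, ∀ i, aeval z (f i) = 0) < 2 / 3 := by
  obtain ⟨c, hc, n₁, hn₁, H⟩ := quad_rand
  have hlog : Tendsto (fun n : ℕ => Real.log (n : ℝ)) atTop atTop :=
    Real.tendsto_log_atTop.comp tendsto_natCast_atTop_atTop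
  filter_upwards [hTo.bound (half_pos hc), eventually_ge_atTop n₁,
    hlog.eventually (eventually_ge_atTop (2 * (e : ℝ) + 2)),
    hlog.eventually (eventually_ge_atTop (3 / c))] with n h1 h2 h3 h4
  have hn3 : 3 ≤ n := hn₁.trans h2
  have hnR : (3 : ℝ) ≤ n := by exact_mod_cast hn3
  have hn0 : (0 : ℝ) < n := by linarith
  obtain ⟨L, hL⟩ : ∃ L : ℝ, L = Real.log n := ⟨_, rfl⟩
  rw [← hL] at h1 h3 h4
  have he0 : (0 : ℝ) ≤ e := Nat.cast_nonneg _
  have hL2 : 2 ≤ L := by linarith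
  have hL0 : 0 < L := by linarith
  have hT0 : (0 : ℝ) < T n := by exact_mod_cast hT n
  have hll : 0 ≤ Real.log L := Real.log_nonneg (by linarith)
  rw [Real.norm_of_nonneg (by positivity), Real.norm_of_nonneg (by linarith)] at h1
  have h5 : (T n : ℝ) * Real.log L ≤ c * L := by nlinarith
  have hpow : ∀ y : ℝ, (n : ℝ) ^ y = Real.exp (L * y) := by
    intro y
    rw [Real.rpow_def_of_pos hn0, hL]
  have h6 : L ^ 2 ≤ (n : ℝ) ^ (c / T n) := by
    rw [hpow]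
    have h7 : 2 * Real.log L ≤ L * (c / T n) := by
      rw [mul_div_assoc', le_div_iff₀ hT0]
      nlinarith
    calc L ^ 2 = Real.exp (2 * Real.log L) := by
          rw [two_mul, Real.exp_add, Real.exp_log hL0]; ring
      _ ≤ _ := Real.exp_le_exp.2 h7
  have h8 : ((n ^ e : ℕ) : ℝ) ≤ 2 ^ ((n : ℝ) ^ (c / T n)) := by
    push_cast
    rw [← Real.rpow_natCast, hpow, Real.rpow_def_of_pos (by norm_num : (0 : ℝ) < 2)]
    apply Real.exp_le_exp.2
    have hl2 : (1 : ℝ) / 2 ≤ Real.log 2 := by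
      have := Real.log_two_gt_d9
      linarith
    calc L * e ≤ (1 / 2) * L ^ 2 := by nlinarith
      _ ≤ Real.log 2 * (n : ℝ) ^ (c / T n) :=
          mul_le_mul hl2 h6 (by positivity) (by linarith)
  intro F _ P R hP hR
  obtain ⟨f, hf1, hf2⟩ := H n (T n) h2 (hT n) (by rw [← hL]; exact h5) F P (n ^ e) R
    (le_trans (by exact_mod_cast hP) h8) hR h8
  refine ⟨f, hf1, lt_of_le_of_lt hf2 ?_⟩
  have h9 : (n : ℝ) ^ (-c) ≤ Real.exp (-3) := by
    rw [hpow]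
    apply Real.exp_le_exp.2
    rw [div_le_iff₀ hc] at h4
    linarith
  have h10 : Real.exp (-3 : ℝ) < 1 / 6 := by
    rw [Real.exp_neg]
    have h11 : (8 : ℝ) < Real.exp 3 := by
      have h12 : (2 : ℝ) < Real.exp 1 := by
        have := Real.exp_one_gt_d9
        linarith
      have h13 : Real.exp 3 = Real.exp 1 ^ 3 := by
        rw [← Real.exp_nat_mul]
        norm_num
      rw [h13]
      calc (8 : ℝ) = 2 ^ 3 := by norm_num
        _ < Real.exp 1 ^ 3 := pow_lt_pow_left₀ h12 (by norm_num) (by norm_num)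
    rw [inv_lt_comm₀ (by positivity) (by norm_num)]
    linarith
  linarith

end Pool.Agent.W964.Wd
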